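import Pool.Agent.helper14.AV.Spec

set_option autoImplicit false

namespace Pool.Agent.helper14.AV

theorem LMX_fn {ι : Type} (A B : ι → ℝ × ℝ) (u : ι) (x : ι × Bool) (h : x.1 = u) :
    D (A u) (B u) (fn A B x) = 0 := by
  subst h
  unfold D fn
  by_cases hb : x.2 = true
  · rw [if_pos hb]; ring
  · rw [if_neg hb]; ring

theorem LMX_st {ι : Type} (A B : ι → ℝ × ℝ) (u : ι) (x : ι × Bool) (h : x.1 = u) :
    D (A u) (B u) (st A B x) = 0 := by
  subst h
  unfold D st
  by_cases hb : x.2 = true
  · rw [if_pos hb]; ring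
  · rw [if_neg hb]; ring

theorem LMX_aff (a b p q : ℝ × ℝ) (α β : ℝ) (h : α + β = 1) :
    D a b (α • p + β • q) = α * D a b p + β * D a b q := by
  have hβ : β = 1 - α := by linarith
  subst hβ
  unfold D
  simp only [Prod.fst_add, Prod.snd_add, Prod.smul_fst, Prod.smul_snd, smul_eq_mul]
  ring

theorem LMX_half {ι : Type} (A B : ι → ℝ × ℝ) (u : ι) (s : ℝ) (x y : ι × Bool) (z : ℝ × ℝ)
    (hxy : x.1 ≠ y.1) (hx : x.1 ≠ u → 0 < s * D (A u) (B u) (fn A B x))
    (hy : y.1 ≠ u → 0 < s * D (A u) (B u) (st A B y))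
    (hz : z ∈ segment ℝ (fn A B x) (st A B y)) :
    0 ≤ s * D (A u) (B u) z ∧
      (s * D (A u) (B u) z = 0 → (x.1 = u ∧ z = fn A B x) ∨ (y.1 = u ∧ z = st A B y)) := by
  obtain ⟨α, β, hα, hβ, hαβ, rfl⟩ := hz
  rw [LMX_aff _ _ _ _ _ _ hαβ]
  by_cases hxu : x.1 = u
  · have hyu : y.1 ≠ u := fun h => hxy (hxu.trans h.symm)
    have h1 := LMX_fn A B u x hxu
    have h2 := hy hyu
    rw [h1]
    have h3 : s * (α * 0 + β * D (A u) (B u) (st A B y)) =
        β * (s * D (A u) (B u) (st A B y)) := by ring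
    rw [h3]
    refine ⟨mul_nonneg hβ h2.le, fun h => Or.inl ⟨hxu, ?_⟩⟩
    have hb : β = 0 := by
      rcases mul_eq_zero.1 h with h | h
      · exact h
      · exact absurd h h2.ne'
    have ha : α = 1 := by linarith
    rw [hb, ha, one_smul, zero_smul, add_zero]
  · have h1 := hx hxu
    by_cases hyu : y.1 = u
    · have h2 := LMX_st A B u y hyu
      rw [h2]
      have h3 : s * (α * D (A u) (B u) (fn A B x) + β * 0) =
          α * (s * D (A u) (B u) (fn A B x)) := by ring
      rw [h3]
      refine ⟨mul_nonneg hα h1.le, fun h => Or.inr ⟨hyu, ?_⟩⟩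
      have ha : α = 0 := by
        rcases mul_eq_zero.1 h with h | h
        · exact h
        · exact absurd h h1.ne'
      have hb : β = 1 := by linarith
      rw [hb, ha, one_smul, zero_smul, zero_add]
    · have h2 := hy hyu
      have h3 : s * (α * D (A u) (B u) (fn A B x) + β * D (A u) (B u) (st A B y)) =
          α * (s * D (A u) (B u) (fn A B x)) + β * (s * D (A u) (B u) (st A B y)) := by ring
      rw [h3]
      have h4 := mul_nonneg hα h1.le
      have h5 := mul_nonneg hβ h2.le
      refine ⟨by linarith, fun h => ?_⟩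
      exfalso
      have h6 : α * (s * D (A u) (B u) (fn A B x)) = 0 := by linarith
      have h7 : β * (s * D (A u) (B u) (st A B y)) = 0 := by linarith
      have ha : α = 0 := by
        rcases mul_eq_zero.1 h6 with h | h
        · exact h
        · exact absurd h h1.ne'
      have hb : β = 0 := by
        rcases mul_eq_zero.1 h7 with h | h
        · exact h
        · exact absurd h h2.ne'
      rw [ha, hb] at hαβ
      norm_num at hαβ

theorem LMX : LMX_stmt := by
  intro ι A B u s x y x' y' hAB hxy hxy' hxx' hxy1 hyy' hyx' hx hy hx' hy'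
  rw [Set.disjoint_left]
  intro z hz hz'
  obtain ⟨h1, h2⟩ := LMX_half A B u s x y z hxy hx hy hz
  obtain ⟨h3, h4⟩ := LMX_half A B u (-s) x' y' z hxy'
    (fun h => by have := hx' h; linarith) (fun h => by have := hy' h; linarith) hz'
  have h5 : s * D (A u) (B u) z = 0 := by linarith
  have h6 : -s * D (A u) (B u) z = 0 := by linarith
  rcases h2 h5 with ⟨ha, _⟩ | ⟨ha, hza⟩
  · rcases h4 h6 with ⟨hb, _⟩ | ⟨hb, _⟩
    · exact hxx' (ha.trans hb.symm)
    · exact hxy1 (ha.trans hb.symm)
  · rcases h4 h6 with ⟨hb, hzb⟩ | ⟨hb, _⟩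
    · have h7 := hyx' (ha.trans hb.symm)
      rw [← h7] at hzb
      rw [hza] at hzb
      unfold st fn at hzb
      by_cases hbb : y.2 = true
      · rw [if_pos hbb, if_pos hbb, ha] at hzb
        exact hAB hzb
      · rw [if_neg hbb, if_neg hbb, ha] at hzb
        exact hAB hzb.symm
    · exact hyy' (ha.trans hb.symm)

end Pool.Agent.helper14.AV
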