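import Pool.Agent.helper14.AV.Spec3

set_option autoImplicit false

namespace Pool.Agent.helper14.AV

theorem COL_mem (p q r : ℝ × ℝ) (a b : ℝ) (ha : 0 ≤ a) (hb : 0 ≤ b) (hab : a + b = 1)
    (h1 : p.1 = a * q.1 + b * r.1) (h2 : p.2 = a * q.2 + b * r.2) : p ∈ segment ℝ q r := by
  refine ⟨a, b, ha, hb, hab, ?_⟩
  refine Prod.ext ?_ ?_
  · rw [Prod.fst_add, Prod.smul_fst, Prod.smul_fst, smul_eq_mul, smul_eq_mul, h1]
  · rw [Prod.snd_add, Prod.smul_snd, Prod.smul_snd, smul_eq_mul, smul_eq_mul, h2]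

theorem COL : COL_stmt := by
  intro x y z h
  unfold D at h
  by_cases hxy : x = y
  · left
    rw [hxy]
    exact left_mem_segment ℝ y z
  · have hN : 0 < (y.1 - x.1) ^ 2 + (y.2 - x.2) ^ 2 := by
      by_contra hc
      apply hxy
      have h1 : (y.1 - x.1) ^ 2 = 0 := by nlinarith [sq_nonneg (y.1 - x.1), sq_nonneg (y.2 - x.2)]
      have h2 : (y.2 - x.2) ^ 2 = 0 := by nlinarith [sq_nonneg (y.1 - x.1), sq_nonneg (y.2 - x.2)]
      have h1' : y.1 - x.1 = 0 := pow_eq_zero_iff (two_ne_zero) |>.mp h1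
      have h2' : y.2 - x.2 = 0 := pow_eq_zero_iff (two_ne_zero) |>.mp h2
      exact Prod.ext (by linarith) (by linarith)
    obtain ⟨t, ht1, ht2⟩ : ∃ t : ℝ, z.1 - x.1 = t * (y.1 - x.1) ∧ z.2 - x.2 = t * (y.2 - x.2) := by
      refine ⟨((z.1 - x.1) * (y.1 - x.1) + (z.2 - x.2) * (y.2 - x.2)) /
        ((y.1 - x.1) ^ 2 + (y.2 - x.2) ^ 2), ?_, ?_⟩
      · rw [div_mul_eq_mul_div, eq_div_iff hN.ne']
        linear_combination (-(y.2 - x.2)) * h
      · rw [div_mul_eq_mul_div, eq_div_iff hN.ne']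
        linear_combination ((y.1 - x.1)) * h
    by_cases h0 : t ≤ 0
    · left
      have hp : 0 < 1 - t := by linarith
      refine COL_mem x y z (-t / (1 - t)) (1 / (1 - t)) (div_nonneg (by linarith) hp.le)
        (div_nonneg zero_le_one hp.le) ?_ ?_ ?_
      · rw [← add_div]
        rw [div_eq_one_iff_eq hp.ne']; ring
      · rw [div_mul_eq_mul_div, div_mul_eq_mul_div, ← add_div, eq_div_iff hp.ne']
        linear_combination (-1 : ℝ) * ht1
      · rw [div_mul_eq_mul_div, div_mul_eq_mul_div, ← add_div, eq_div_iff hp.ne']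
        linear_combination (-1 : ℝ) * ht2
    · push Not at h0
      by_cases h1 : t ≤ 1
      · right; right
        refine COL_mem z x y (1 - t) t (by linarith) h0.le (by ring) ?_ ?_
        · linear_combination ht1
        · linear_combination ht2
      · push Not at h1
        right; left
        refine COL_mem y x z ((t - 1) / t) (1 / t) (div_nonneg (by linarith) h0.le)
          (div_nonneg zero_le_one h0.le) ?_ ?_ ?_
        · rw [← add_div, div_eq_one_iff_eq h0.ne']; ring
        · rw [div_mul_eq_mul_div, div_mul_eq_mul_div, ← add_div, eq_div_iff h0.ne']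
          linear_combination (-1 : ℝ) * ht1
        · rw [div_mul_eq_mul_div, div_mul_eq_mul_div, ← add_div, eq_div_iff h0.ne']
          linear_combination (-1 : ℝ) * ht2

end Pool.Agent.helper14.AV

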